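import Pool.Agent.Lib.MP_515a76_al.Final

namespace Pool.Agent.Results.MP_515a76_al.Decomposable

open Pool.Agent.KM

/-- For `n = 16` there are `x`, `z` such that `θ_x L_z` is a direct sum of two nonzero modules. -/
theorem result : ∃ (x z : Equiv.Perm (Fin 16)) (T : SlMod.ProjFunctor 16) (Lz : SlMod 16)
    (hz : Lz.InO0), T.IsTheta x ∧ Lz.IsSimpleHW (SlMod.dot z) ∧
      ∃ N₁ N₂ : (T.obj Lz hz).Sub, N₁ ≠ ⊥ ∧ N₂ ≠ ⊥ ∧ IsCompl N₁ N₂ :=
  main

end Pool.Agent.Results.MP_515a76_al.Decomposable
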